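import Mathlib
import Pool.Agent.LibRV11.Final2

/-!
# Uniform boundedness of the Fourier interpolation basis of Radchenko and Viazovska

For every `n : ℕ` the basis function `b_n^+` is the even Schwartz function on the real line
which equals its own Fourier transform and satisfies `b_n^+ (√m) = δ_{n, m}` for all `m : ℕ`.
The theorem: these functions exist, are unique, and are bounded by one constant, uniformly in
`n` and in `x`.
-/

namespace Pool.Agent.Results.MP_dc34ef_an.UniformBound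

/-- There is one constant `C > 0` such that for every `n : ℕ` there is exactly one even Schwartz
function `b : ℝ → ℝ` which equals its own Fourier transform `∫ b(x) e^{-2πiξx} dx` and satisfies
`b (√m) = 1` if `m = n` and `0` otherwise, for all `m : ℕ` (this is `b_n^+`), and this function
satisfies `|b x| < C` for all real `x`. -/
theorem result : ∃ C : ℝ, 0 < C ∧ ∀ n : ℕ,
    (∃! b : SchwartzMap ℝ ℝ,
      (∀ x : ℝ, b (-x) = b x) ∧
      (∀ ξ : ℝ, ∫ x : ℝ, ((b x : ℝ) : ℂ) * Complex.exp (-(2 * Real.pi * Complex.I * ξ * x)) =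
        ((b ξ : ℝ) : ℂ)) ∧
      (∀ m : ℕ, b (Real.sqrt m) = if m = n then 1 else 0)) ∧
    (∀ b : SchwartzMap ℝ ℝ,
      (∀ x : ℝ, b (-x) = b x) →
      (∀ ξ : ℝ, ∫ x : ℝ, ((b x : ℝ) : ℂ) * Complex.exp (-(2 * Real.pi * Complex.I * ξ * x)) =
        ((b ξ : ℝ) : ℂ)) →
      (∀ m : ℕ, b (Real.sqrt m) = if m = n then 1 else 0) →
      ∀ x : ℝ, |b x| < C) := by
  obtain ⟨C, hC0, hC⟩ := RV11.main2
  have e : ∀ b : SchwartzMap ℝ ℝ, (∀ ξ : ℝ, ∫ x : ℝ, ((b x : ℝ) : ℂ) *
      Complex.exp (-(2 * Real.pi * Complex.I * ξ * x)) = ((b ξ : ℝ) : ℂ)) ↔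
      (∀ ξ : ℝ, ∫ x : ℝ, ((b x : ℝ) : ℂ) *
      Complex.exp (-(2 * Real.pi * Complex.I * x * ξ)) = ((b ξ : ℝ) : ℂ)) := by
    intro b
    refine forall_congr' fun ξ => ?_
    have : ∀ x : ℝ, ((b x : ℝ) : ℂ) * Complex.exp (-(2 * Real.pi * Complex.I * ξ * x)) =
        ((b x : ℝ) : ℂ) * Complex.exp (-(2 * Real.pi * Complex.I * x * ξ)) := by
      intro x
      rw [show (2 * (Real.pi : ℂ) * Complex.I * (x : ℂ) * (ξ : ℂ)) =
        2 * (Real.pi : ℂ) * Complex.I * (ξ : ℂ) * (x : ℂ) by ring]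
    simp only [this]
  refine ⟨C, hC0, fun n => ?_⟩
  simp only [e]
  exact hC n

end Pool.Agent.Results.MP_dc34ef_an.UniformBound
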